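import Pool.Agent.Helper27.OT.Defs

/-!
# MP_2857a5_co : module OP (from oriented trees to rooted trees)
-/

set_option autoImplicit false

open Finset
open scoped Classical

namespace OT

noncomputable section

/-- the parent function of a tree with a root -/
private theorem exists_parent {V : Type} (G : SimpleGraph V) (hG : G.IsTree) (r : V) :
    ∃ par : V → V, (∀ v, v ≠ r → G.Adj (par v) v ∧ G.dist r v = G.dist r (par v) + 1) ∧
      ∀ u v, G.Adj u v → G.dist r v = G.dist r u + 1 → par v = u := by
  have hex : ∀ v, v ≠ r → ∃ u, G.Adj u v ∧ G.dist r v = G.dist r u + 1 := by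
    intro v hv
    obtain ⟨p, hp⟩ := hG.connected.exists_walk_length_eq_dist r v
    have hn : ¬ p.Nil := fun h => hv h.eq.symm
    have h1 := SimpleGraph.Walk.length_dropLast_add_one hn
    have h2 := SimpleGraph.dist_le p.dropLast
    refine ⟨p.penultimate, p.adj_penultimate hn, ?_⟩
    rcases hG.dist_eq_dist_add_one_of_adj r (p.adj_penultimate hn) with h3 | h3
    · omega
    · exact h3
  refine ⟨fun v => if h : v ≠ r then (hex v h).choose else v, fun v hv => ?_, fun u v huv hd => ?_⟩
  · simp only [dif_pos hv]
    exact (hex v hv).choose_spec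
  · have hv : v ≠ r := by
      rintro rfl
      rw [SimpleGraph.dist_self] at hd
      omega
    simp only [dif_pos hv]
    obtain ⟨h1, h2⟩ := (hex v hv).choose_spec
    set u' := (hex v hv).choose with hu'
    obtain ⟨p, hp⟩ := hG.connected.exists_walk_length_eq_dist r u
    obtain ⟨p', hp'⟩ := hG.connected.exists_walk_length_eq_dist r u'
    have h3 : (p.concat huv).length = G.dist r v := by
      rw [SimpleGraph.Walk.length_concat, hp, hd]
    have h4 : (p'.concat h1).length = G.dist r v := by
      rw [SimpleGraph.Walk.length_concat, hp', h2]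
    have h5 := (hG.existsUnique_path r v).unique ((p.concat huv).isPath_of_length_eq_dist h3)
      ((p'.concat h1).isPath_of_length_eq_dist h4)
    have h6 := congrArg SimpleGraph.Walk.penultimate h5
    rw [SimpleGraph.Walk.penultimate_concat, SimpleGraph.Walk.penultimate_concat] at h6
    exact h6.symm

theorem of_ptree {n : ℕ} (G : Fin n → Fin n → Prop) (Δ : ℕ)
    (h : ∀ T : PTree n, T.Deg Δ → T.Emb G) (T : Fin n → Fin n → Prop)
    (hT : ∀ u v : Fin n, T u v → ¬ T v u) (ht : (SimpleGraph.fromRel T).IsTree)
    (hΔ : ∀ v : Fin n, ((SimpleGraph.fromRel T).neighborSet v).ncard ≤ Δ) :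
    ∃ φ : Fin n → Fin n, Function.Injective φ ∧ ∀ u v : Fin n, T u v → G (φ u) (φ v) := by
  set Gr := SimpleGraph.fromRel T with hGr
  obtain ⟨r⟩ : Nonempty (Fin n) := ht.connected.nonempty
  have : NeZero n := ⟨by have := r.pos; omega⟩
  obtain ⟨pa, hpa, huniq⟩ := exists_parent Gr ht r
  let f : Fin n → ℕ := fun v => Gr.dist r v
  let e : Equiv.Perm (Fin n) := Tuple.sort f
  have hmono : Monotone (f ∘ e) := Tuple.monotone_sort f
  have he0 : ∀ i : Fin n, e i = r → (i : ℕ) = 0 := by
    intro i hi
    by_contra hne
    have h1 : f (e 0) ≤ f (e i) := hmono (Fin.zero_le i)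
    have h2 : f (e i) = 0 := by
      simp only [f, hi, SimpleGraph.dist_self]
    have h3 : Gr.dist r (e 0) = 0 := by
      have : f (e 0) = 0 := by omega
      exact this
    have h4 : r = e 0 := (ht.connected.dist_eq_zero_iff).mp h3
    have h5 : i = 0 := e.injective (hi.trans h4)
    rw [h5] at hne
    exact hne rfl
  have he1 : e 0 = r := by
    have h1 : f (e 0) ≤ f (e (e.symm r)) := hmono (Fin.zero_le _)
    rw [Equiv.apply_symm_apply] at h1
    have h2 : f r = 0 := SimpleGraph.dist_self
    have h3 : Gr.dist r (e 0) = 0 := by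
      have : f (e 0) = 0 := by omega
      exact this
    exact ((ht.connected.dist_eq_zero_iff).mp h3).symm
  have hne : ∀ i : Fin n, (i : ℕ) ≠ 0 → e i ≠ r := fun i hi h => hi (he0 i h)
  let P : PTree n :=
    { par := fun i => e.symm (pa (e i))
      sg := fun i => decide (T (pa (e i)) (e i))
      lt := by
        intro i hi
        obtain ⟨_, h2⟩ := hpa (e i) (hne i hi)
        by_contra hle
        rw [not_lt] at hle
        have h3 : f (e i) ≤ f (e (e.symm (pa (e i)))) := hmono hle
        rw [Equiv.apply_symm_apply] at h3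
        have h4 : f (e i) = f (pa (e i)) + 1 := h2
        omega }
  have hdeg : P.Deg Δ := by
    intro v
    refine le_trans ?_ (hΔ (e v))
    unfold PTree.nch PTree.ch
    rw [← Set.ncard_coe_finset, ← Set.ncard_image_of_injective _ e.injective]
    refine Set.ncard_le_ncard ?_ (Set.toFinite _)
    rintro _ ⟨i, hi, rfl⟩
    rw [Finset.mem_coe, Finset.mem_filter] at hi
    obtain ⟨_, hi0, hiv⟩ := hi
    have h1 := (hpa (e i) (hne i hi0)).1
    have h2 : pa (e i) = e v := by
      rw [← hiv]
      exact (Equiv.apply_symm_apply e _).symm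
    rw [h2] at h1
    exact h1
  obtain ⟨φ, hφ, hφ'⟩ := h P hdeg
  refine ⟨φ ∘ e.symm, hφ.comp e.symm.injective, ?_⟩
  -- an arc between the parent of `v` and `v`
  have key : ∀ v, v ≠ r → Adj G (decide (T (pa v) v)) (φ (e.symm (pa v))) (φ (e.symm v)) := by
    intro v hv
    have h0 : ((e.symm v : Fin n) : ℕ) ≠ 0 := by
      intro h0
      have h1 : e.symm v = 0 := Fin.ext (by simpa using h0)
      rw [Equiv.symm_apply_eq, he1] at h1
      exact hv h1
    have h1 := hφ' (e.symm v) h0
    have h2 : P.sg (e.symm v) = decide (T (pa v) v) := by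
      simp only [P, Equiv.apply_symm_apply]
    have h3 : P.par (e.symm v) = e.symm (pa v) := by
      simp only [P, Equiv.apply_symm_apply]
    rwa [h2, h3] at h1
  intro u v huv
  have hne' : u ≠ v := by
    rintro rfl
    exact hT u u huv huv
  have hadj : Gr.Adj u v := by
    rw [hGr, SimpleGraph.fromRel_adj]
    exact ⟨hne', Or.inl huv⟩
  rcases ht.dist_eq_dist_add_one_of_adj r hadj with h1 | h1
  · -- `v` is the parent of `u`
    have h2 := huniq v u hadj.symm h1
    have hur : u ≠ r := by
      rintro rfl
      rw [SimpleGraph.dist_self] at h1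
      omega
    have h3 := key u hur
    rw [h2] at h3
    have h4 : decide (T v u) = false := by
      simpa using hT u v huv
    rw [h4] at h3
    simpa [Adj] using h3
  · have h2 := huniq u v hadj h1
    have hvr : v ≠ r := by
      rintro rfl
      rw [SimpleGraph.dist_self] at h1
      omega
    have h3 := key v hvr
    rw [h2] at h3
    have h4 : decide (T u v) = true := by
      simpa using huv
    rw [h4] at h3
    simpa [Adj] using h3

end

end OT
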